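import Pool.Agent.N879.GD.Stm

/-!
Project GDZ (helper260), package DET: the integral for parameters which are bad only finitely often.
-/

set_option autoImplicit false

namespace Pool.Agent.U364.GZ

open Complex Filter Topology MeasureTheory Set
open Pool.Agent.Y969.GP (ff)
open Pool.Agent.N879.GD

theorem sq_int {F : ℝ → ℂ} (hF : Gr F) {ε : ℝ} (hε : 0 < ε) : ∃ C : ℝ, 0 < C ∧ ∀ T : ℝ, 1 ≤ T →
    IntegrableOn (fun t => ‖F t‖ ^ 2) (Ioc 0 T) ∧
      ∫ t in Ioc 0 T, ‖F t‖ ^ 2 ≤ C * T ^ (1 + ε) := by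
  obtain ⟨hm, h⟩ := hF
  obtain ⟨C, hC, hb⟩ := h ε hε
  refine ⟨C, hC, fun T hT => ?_⟩
  have h1 := hb T hT
  have hmeas : AEStronglyMeasurable (fun t => ‖F t‖ ^ 2) (volume.restrict (Ioc 0 T)) :=
    (hm.norm.pow_const 2).aestronglyMeasurable
  have e : ∀ t, ENNReal.ofReal (‖F t‖ ^ 2) = ‖F t‖ₑ ^ 2 := fun t => by
    rw [ENNReal.ofReal_pow (norm_nonneg _), ofReal_norm]
  have h2 : ∫⁻ t in Ioc 0 T, ENNReal.ofReal (‖F t‖ ^ 2) ≤ ENNReal.ofReal (C * T ^ (1 + ε)) := by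
    simp_rw [e]
    exact h1
  have hT0 : 0 < T := by linarith
  constructor
  · refine ⟨hmeas, ?_⟩
    rw [hasFiniteIntegral_iff_ofReal (ae_of_all _ fun t => by positivity)]
    exact h2.trans_lt ENNReal.ofReal_lt_top
  · rw [integral_eq_lintegral_of_nonneg_ae (ae_of_all _ fun t => by positivity) hmeas]
    exact ENNReal.toReal_le_of_le_ofReal (by positivity) h2

theorem gr_norm {F : ℝ → ℂ} (hF : Gr F) : Gr (fun t => ((‖F t‖ : ℝ) : ℂ)) := by
  refine ⟨Complex.measurable_ofReal.comp hF.1.norm, fun ε hε => ?_⟩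
  obtain ⟨C, hC, h⟩ := hF.2 ε hε
  refine ⟨C, hC, fun T hT => ?_⟩
  have e : ∀ t, ‖((‖F t‖ : ℝ) : ℂ)‖ₑ = ‖F t‖ₑ := fun t => by
    rw [← ofReal_norm, ← ofReal_norm, Complex.norm_real, norm_norm]
  simp_rw [e]
  exact h T hT

theorem int_dif (h2 : S_INT) {k : ℕ} {F : ℝ → ℂ} (hF : Gr F) {l : Fin k → ℝ} (hl : ∀ j, 0 < l j)
    (T : ℝ) : IntegrableOn (fun t => F t * ((dif l t : ℝ) : ℂ)) (Ioc 0 T) := by
  obtain ⟨a, b⟩ := h2 k F hF l hl T
  have e : (fun t => F t * ((dif l t : ℝ) : ℂ)) = fun t =>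
      F t * ((∏ j, ff (l j * t) : ℝ) : ℂ) - F t * ((∏ j, D0 (l j * t) : ℝ) : ℂ) := by
    funext t
    unfold dif
    rw [Complex.ofReal_sub, mul_sub]
  rw [e]
  exact a.sub b

theorem D0_bound {A : ℝ} (hA : 1 ≤ A) {η : ℝ} (hη : 0 < η) : ∃ K : ℝ, 1 ≤ K ∧ ∀ l t : ℝ,
    A⁻¹ ≤ l → l ≤ A → 1 ≤ t → |D0 (l * t)| ≤ K * t ^ η := by
  have hA0 : 0 < A := by linarith
  have hlA : 0 ≤ Real.log A := Real.log_nonneg hA
  have hη1 : 0 < 1 / η := by positivity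
  refine ⟨1 + Real.log A + |Real.log (2 * Real.pi)| + 1 / η +
    |2 * Real.eulerMascheroniConstant|, ?_, ?_⟩
  · have h1 := abs_nonneg (Real.log (2 * Real.pi))
    have h2 := abs_nonneg (2 * Real.eulerMascheroniConstant)
    linarith
  · intro l t hl1 hl2 ht
    have hl0 : 0 < l := lt_of_lt_of_le (inv_pos.2 hA0) hl1
    have ht0 : 0 < t := by linarith
    have h1 : 1 ≤ t ^ η := Real.one_le_rpow ht hη.le
    have hlogt : Real.log t ≤ t ^ η / η := Real.log_le_rpow_div ht0.le hη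
    have hlogt0 : 0 ≤ Real.log t := Real.log_nonneg ht
    have hl3 : |Real.log l| ≤ Real.log A := by
      rw [abs_le]
      constructor
      · rw [← Real.log_inv]
        exact Real.log_le_log (inv_pos.2 hA0) hl1
      · exact Real.log_le_log hl0 hl2
    have e : D0 (l * t) = Real.log l + Real.log t - Real.log (2 * Real.pi) +
        2 * Real.eulerMascheroniConstant := by
      unfold D0
      rw [Real.log_div (by positivity) (by positivity), Real.log_mul hl0.ne' ht0.ne']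
    rw [e]
    have h2 : |Real.log l + Real.log t - Real.log (2 * Real.pi) +
        2 * Real.eulerMascheroniConstant| ≤ Real.log A + Real.log t +
          |Real.log (2 * Real.pi)| + |2 * Real.eulerMascheroniConstant| := by
      have a1 := abs_le.1 hl3
      have a2 := neg_abs_le (Real.log (2 * Real.pi))
      have a3 := le_abs_self (Real.log (2 * Real.pi))
      have a4 := neg_abs_le (2 * Real.eulerMascheroniConstant)
      have a5 := le_abs_self (2 * Real.eulerMascheroniConstant)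
      rw [abs_le]
      constructor <;> linarith [a1.1, a1.2]
    refine h2.trans ?_
    have h3 : t ^ η / η = 1 / η * t ^ η := by ring
    have h4 : Real.log A + |Real.log (2 * Real.pi)| + |2 * Real.eulerMascheroniConstant| ≤
        (Real.log A + |Real.log (2 * Real.pi)| + |2 * Real.eulerMascheroniConstant|) * t ^ η :=
      le_mul_of_one_le_right (by positivity) h1
    have h5 : 0 < t ^ η := by linarith
    nlinarith

theorem prod_D0 (k : ℕ) {A : ℝ} (hA : 1 ≤ A) {ε : ℝ} (hε : 0 < ε) : ∃ K : ℝ, 0 ≤ K ∧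
    ∀ l : Fin k → ℝ, (∀ j, A⁻¹ ≤ l j ∧ l j ≤ A) → ∀ t : ℝ, 1 ≤ t →
      |∏ j, D0 (l j * t)| ≤ K * t ^ ε := by
  obtain ⟨K, hK, h⟩ := D0_bound hA (η := ε / (k + 1)) (by positivity)
  refine ⟨K ^ k, by positivity, fun l hl t ht => ?_⟩
  have ht0 : 0 ≤ t := by linarith
  rw [Finset.abs_prod]
  calc ∏ j, |D0 (l j * t)| ≤ ∏ _j : Fin k, (K * t ^ (ε / (k + 1))) :=
        Finset.prod_le_prod (fun _ _ => abs_nonneg _) fun j _ => h _ _ (hl j).1 (hl j).2 ht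
    _ = K ^ k * (t ^ (ε / (k + 1))) ^ k := by
        rw [Finset.prod_const, Finset.card_univ, Fintype.card_fin, mul_pow]
    _ ≤ K ^ k * t ^ ε := by
        gcongr
        rw [← Real.rpow_natCast, ← Real.rpow_mul ht0]
        apply Real.rpow_le_rpow_of_exponent_le ht
        rw [div_mul_eq_mul_div, div_le_iff₀ (by positivity)]
        nlinarith

theorem cell (h2 : S_INT) {k : ℕ} {F : ℝ → ℂ} (hF : Gr F) {l : Fin k → ℝ} (hl : ∀ j, 0 < l j)
    {ε K : ℝ} (hε : 0 < ε) (hK : 0 ≤ K) (hD : ∀ t, 1 ≤ t → |∏ j, D0 (l j * t)| ≤ K * t ^ ε)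
    {a b Y lb : ℝ} (ha : 1 ≤ a) (hab : a ≤ b) (hbY : b ≤ Y) (hlb : 0 < lb)
    (hS : IntegrableOn (fun t => ‖F t‖ ^ 2) (Ioc 0 Y)) :
    ∫ t in Ioc a b, ‖F t * ((dif l t : ℝ) : ℂ)‖ ≤ JJ (fun t => ((‖F t‖ : ℝ) : ℂ)) l a b +
      K * Y ^ ε * (lb * (b - a) + lb⁻¹ * ∫ t in Ioc 0 Y, ‖F t‖ ^ 2) := by
  have hsub : Ioc a b ⊆ Ioc 0 Y := Ioc_subset_Ioc (by linarith) hbY
  have hY0 : 0 < Y := by linarith
  have i1 : IntegrableOn (fun t => F t * ((dif l t : ℝ) : ℂ)) (Ioc a b) :=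
    (int_dif h2 hF hl Y).mono_set hsub
  have e : (fun t => ((‖F t‖ : ℝ) : ℂ) * ((dif l t : ℝ) : ℂ)) =
      fun t => ((‖F t‖ * dif l t : ℝ) : ℂ) := by
    funext t
    rw [Complex.ofReal_mul]
  have i2 : IntegrableOn (fun t => ((‖F t‖ : ℝ) : ℂ) * ((dif l t : ℝ) : ℂ)) (Ioc a b) :=
    (int_dif h2 (gr_norm hF) hl Y).mono_set hsub
  have i3 : IntegrableOn (fun t => ‖F t‖ * dif l t) (Ioc a b) := by
    rw [e] at i2
    exact i2.re
  have i4 : IntegrableOn (fun t => ‖F t‖ ^ 2) (Ioc a b) := hS.mono_set hsub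
  have i6 : IntegrableOn (fun _ : ℝ => lb) (Ioc a b) := integrableOn_const (by simp) (by simp)
  have i5 : IntegrableOn (fun t => K * Y ^ ε * (lb + lb⁻¹ * ‖F t‖ ^ 2)) (Ioc a b) :=
    (i6.add (i4.const_mul _)).const_mul _
  have step1 : ∫ t in Ioc a b, ‖F t * ((dif l t : ℝ) : ℂ)‖ ≤
      ∫ t in Ioc a b, (‖F t‖ * dif l t + K * Y ^ ε * (lb + lb⁻¹ * ‖F t‖ ^ 2)) := by
    refine setIntegral_mono_on i1.norm (i3.add i5) measurableSet_Ioc fun t ht => ?_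
    have ht1 : 1 ≤ t := ha.trans ht.1.le
    have htY : t ≤ Y := ht.2.trans hbY
    have hP : 0 ≤ ∏ j, ff (l j * t) := Finset.prod_nonneg fun j _ => by
      unfold Pool.Agent.Y969.GP.ff
      positivity
    have hDt := hD t ht1
    have hYt : t ^ ε ≤ Y ^ ε := Real.rpow_le_rpow (by linarith) htY hε.le
    rw [norm_mul, Complex.norm_real, Real.norm_eq_abs]
    have h3 : |dif l t| ≤ dif l t + 2 * |∏ j, D0 (l j * t)| := by
      unfold dif
      have a1 := le_abs_self (∏ j, D0 (l j * t))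
      have a2 := abs_nonneg (∏ j, D0 (l j * t))
      rw [abs_le]
      constructor <;> linarith
    have h5 : 2 * ‖F t‖ ≤ lb + lb⁻¹ * ‖F t‖ ^ 2 := by
      have e1 : lb + lb⁻¹ * ‖F t‖ ^ 2 - 2 * ‖F t‖ = lb⁻¹ * (lb - ‖F t‖) ^ 2 := by
        field_simp
        ring
      have e2 : 0 ≤ lb⁻¹ * (lb - ‖F t‖) ^ 2 := by positivity
      linarith
    have h4 : ‖F t‖ * (2 * |∏ j, D0 (l j * t)|) ≤ K * Y ^ ε * (lb + lb⁻¹ * ‖F t‖ ^ 2) := by
      calc ‖F t‖ * (2 * |∏ j, D0 (l j * t)|) = (2 * ‖F t‖) * |∏ j, D0 (l j * t)| := by ring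
        _ ≤ (2 * ‖F t‖) * (K * Y ^ ε) := by
            refine mul_le_mul_of_nonneg_left (hDt.trans ?_) (by positivity)
            gcongr
        _ = K * Y ^ ε * (2 * ‖F t‖) := by ring
        _ ≤ K * Y ^ ε * (lb + lb⁻¹ * ‖F t‖ ^ 2) := by
            refine mul_le_mul_of_nonneg_left h5 ?_
            positivity
    calc ‖F t‖ * |dif l t| ≤ ‖F t‖ * (dif l t + 2 * |∏ j, D0 (l j * t)|) :=
          mul_le_mul_of_nonneg_left h3 (norm_nonneg _)
      _ = ‖F t‖ * dif l t + ‖F t‖ * (2 * |∏ j, D0 (l j * t)|) := by ring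
      _ ≤ ‖F t‖ * dif l t + K * Y ^ ε * (lb + lb⁻¹ * ‖F t‖ ^ 2) := by linarith
  have step2 : ∫ t in Ioc a b, (‖F t‖ * dif l t + K * Y ^ ε * (lb + lb⁻¹ * ‖F t‖ ^ 2)) =
      (∫ t in Ioc a b, ‖F t‖ * dif l t) +
        K * Y ^ ε * (lb * (b - a) + lb⁻¹ * ∫ t in Ioc a b, ‖F t‖ ^ 2) := by
    rw [integral_add i3 i5, integral_const_mul, integral_add i6 (i4.const_mul _),
      integral_const_mul, setIntegral_const, Real.volume_real_Ioc_of_le hab, smul_eq_mul,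
      mul_comm (b - a) lb]
  have step3 : ∫ t in Ioc a b, ‖F t‖ * dif l t ≤ JJ (fun t => ((‖F t‖ : ℝ) : ℂ)) l a b := by
    unfold JJ
    rw [integral_Icc_eq_integral_Ioc, e, integral_complex_ofReal, Complex.norm_real,
      Real.norm_eq_abs]
    exact le_abs_self _
  have step4 : ∫ t in Ioc a b, ‖F t‖ ^ 2 ≤ ∫ t in Ioc 0 Y, ‖F t‖ ^ 2 :=
    setIntegral_mono_set hS (ae_of_all _ fun t => by positivity) hsub.eventuallyLE
  have hKY : 0 ≤ K * Y ^ ε := by positivity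
  calc ∫ t in Ioc a b, ‖F t * ((dif l t : ℝ) : ℂ)‖ ≤ _ := step1
    _ = _ := step2
    _ ≤ _ := by
        gcongr

theorem exists_cell {N : ℕ} (hN : 1 ≤ N) {s : ℝ} (h0 : 0 ≤ s) (h1 : s ≤ N) :
    ∃ i < N, (i : ℝ) ≤ s ∧ s ≤ i + 1 := by
  rcases h1.lt_or_eq with h | h
  · exact ⟨⌊s⌋₊, (Nat.floor_lt h0).2 h, Nat.floor_le h0, (Nat.lt_floor_add_one s).le⟩
  · refine ⟨N - 1, by omega, ?_, ?_⟩
    · rw [h]
      exact_mod_cast Nat.sub_le N 1
    · rw [h]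
      have : N - 1 + 1 = N := by omega
      exact_mod_cast this.ge

theorem local_bound (h2 : S_INT) {k : ℕ} {F : ℝ → ℂ} {A θ ρ δ : ℝ} (hF : Gr F) (hA : 1 ≤ A)
    (hθ : 0 < θ) (hδρ : δ < ρ) (hδθ : 2 * δ < θ) {l : Fin k → ℝ}
    (hl : ∀ j, A⁻¹ ≤ l j ∧ l j ≤ A) : ∃ C : ℝ, 0 < C ∧ ∀ n : ℕ, l ∉ Bad k F A 1 θ ρ n →
      ∀ T : ℝ, (2 : ℝ) ^ n ≤ T → T ≤ 2 ^ (n + 1) →
        ‖∫ t in (2 : ℝ) ^ n..T, F t * ((dif l t : ℝ) : ℂ)‖ ≤ C * ((2 : ℝ) ^ n) ^ (1 - δ) := by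
  have hA0 : 0 < A := by linarith
  have hl0 : ∀ j, 0 < l j := fun j => lt_of_lt_of_le (inv_pos.2 hA0) (hl j).1
  obtain ⟨ε, hε⟩ : ∃ ε, ε = (θ / 2 - δ) / 2 := ⟨_, rfl⟩
  have hε0 : 0 < ε := by rw [hε]; linarith
  obtain ⟨K, hK, hD⟩ := prod_D0 k hA hε0
  have hD' := hD l hl
  obtain ⟨C, hC, hS⟩ := sq_int hF hε0
  refine ⟨2 + K * 2 ^ ε * (1 + C * 2 ^ (1 + ε)), by positivity, fun n hn T hT1 hT2 => ?_⟩
  obtain ⟨X, hX⟩ : ∃ X : ℝ, X = 2 ^ n := ⟨_, rfl⟩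
  have hX1 : 1 ≤ X := by rw [hX]; exact one_le_pow₀ (by norm_num)
  have hX0 : 0 < X := by linarith
  have hpos : (2 : ℝ) ^ (n + 1) = 2 * X := by rw [hX]; ring
  have hbad : ∀ i < NN θ n, JJ F l (2 ^ n) (gp θ n i) ≤ X ^ (1 - ρ) ∧
      JJ (fun t => ((‖F t‖ : ℝ) : ℂ)) l (gp θ n i) (gp θ n (i + 1)) ≤ X ^ (1 - ρ) := by
    intro i hi
    constructor
    · by_contra h
      apply hn
      refine ⟨hl, i, hi, Or.inl ?_⟩
      rw [one_mul, ← hX]
      rw [← hX] at h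
      exact not_le.1 h
    · by_contra h
      apply hn
      refine ⟨hl, i, hi, Or.inr ?_⟩
      rw [one_mul, ← hX]
      exact not_le.1 h
  have hNN : X ^ θ ≤ NN θ n := by
    unfold NN
    rw [← hX]
    exact Nat.le_ceil _
  have hNN0 : (0 : ℝ) < NN θ n := lt_of_lt_of_le (by positivity) hNN
  have hNN1 : 1 ≤ NN θ n := by exact_mod_cast hNN0
  rw [← hX] at hT1
  rw [hpos] at hT2
  obtain ⟨i, hi, hi1, hi2⟩ := exists_cell hNN1 (s := NN θ n * (T / X - 1))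
    (mul_nonneg hNN0.le (by rw [sub_nonneg, le_div_iff₀ hX0]; linarith))
    (by
      have : T / X ≤ 2 := by rw [div_le_iff₀ hX0]; exact hT2
      nlinarith)
  have hg1 : gp θ n i ≤ T := by
    unfold gp
    rw [← hX]
    have h3 : (i : ℝ) / NN θ n ≤ T / X - 1 := by
      rw [div_le_iff₀ hNN0]
      linarith
    calc X * (1 + (i : ℝ) / NN θ n) ≤ X * (T / X) := by
          refine mul_le_mul_of_nonneg_left ?_ hX0.le
          linarith
      _ = T := by field_simp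
  have hg2 : T ≤ gp θ n (i + 1) := by
    unfold gp
    rw [← hX]
    have h3 : T / X - 1 ≤ ((i + 1 : ℕ) : ℝ) / NN θ n := by
      rw [le_div_iff₀ hNN0]
      push_cast
      linarith
    calc T = X * (T / X) := by field_simp
      _ ≤ X * (1 + ((i + 1 : ℕ) : ℝ) / NN θ n) := by
          refine mul_le_mul_of_nonneg_left ?_ hX0.le
          linarith
  have hg0 : X ≤ gp θ n i := by
    unfold gp
    rw [← hX]
    have : 0 ≤ (i : ℝ) / NN θ n := by positivity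
    nlinarith
  have hg3 : gp θ n (i + 1) ≤ 2 * X := by
    unfold gp
    rw [← hX]
    have h3 : ((i + 1 : ℕ) : ℝ) / NN θ n ≤ 1 := by
      rw [div_le_iff₀ hNN0, one_mul]
      exact_mod_cast hi
    nlinarith
  have hgd : gp θ n (i + 1) - gp θ n i ≤ X ^ (1 - θ) := by
    have h3 : gp θ n (i + 1) - gp θ n i = X / NN θ n := by
      unfold gp
      rw [← hX]
      push_cast
      ring
    rw [h3, div_le_iff₀ hNN0]
    calc X = X ^ (1 - θ) * X ^ θ := by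
          rw [← Real.rpow_add hX0, sub_add_cancel, Real.rpow_one]
      _ ≤ X ^ (1 - θ) * NN θ n := by gcongr
  obtain ⟨hS1, hS2⟩ := hS (2 * X) (by linarith)
  have hcell := cell h2 hF hl0 hε0 hK hD' (a := gp θ n i) (b := gp θ n (i + 1)) (Y := 2 * X)
    (lb := X ^ (θ / 2)) (by linarith) (by linarith) hg3 (by positivity) hS1
  obtain ⟨hb1, hb2⟩ := hbad i hi
  -- integrability
  have hint : ∀ a b : ℝ, 0 ≤ a → a ≤ b →
      IntervalIntegrable (fun t => F t * ((dif l t : ℝ) : ℂ)) volume a b := by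
    intro a b ha hab
    rw [intervalIntegrable_iff_integrableOn_Ioc_of_le hab]
    exact (int_dif h2 hF hl0 b).mono_set (Ioc_subset_Ioc ha le_rfl)
  have hsplit := intervalIntegral.integral_add_adjacent_intervals
    (hint X (gp θ n i) hX0.le hg0) (hint (gp θ n i) T (by linarith) hg1)
  rw [← hX, ← hsplit]
  have p1 : ‖∫ t in X..gp θ n i, F t * ((dif l t : ℝ) : ℂ)‖ ≤ X ^ (1 - ρ) := by
    rw [intervalIntegral.integral_of_le hg0, ← integral_Icc_eq_integral_Ioc]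
    rw [← hX] at hb1
    exact hb1
  have p2 : ‖∫ t in gp θ n i..T, F t * ((dif l t : ℝ) : ℂ)‖ ≤
      ∫ t in Ioc (gp θ n i) (gp θ n (i + 1)), ‖F t * ((dif l t : ℝ) : ℂ)‖ := by
    rw [intervalIntegral.integral_of_le hg1]
    refine (norm_integral_le_integral_norm _).trans ?_
    have h3 := hint (gp θ n i) (gp θ n (i + 1)) (by linarith) (by linarith)
    rw [intervalIntegrable_iff_integrableOn_Ioc_of_le (by linarith)] at h3
    exact setIntegral_mono_set h3.norm (ae_of_all _ fun t => norm_nonneg _)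
      (Ioc_subset_Ioc le_rfl hg2).eventuallyLE
  have q1 : X ^ (1 - ρ) ≤ X ^ (1 - δ) := Real.rpow_le_rpow_of_exponent_le hX1 (by linarith)
  have q2 : K * (2 * X) ^ ε * (X ^ (θ / 2) * (gp θ n (i + 1) - gp θ n i) +
      (X ^ (θ / 2))⁻¹ * ∫ t in Ioc 0 (2 * X), ‖F t‖ ^ 2) ≤
      K * 2 ^ ε * (1 + C * 2 ^ (1 + ε)) * X ^ (1 - δ) := by
    have r1 : X ^ (θ / 2) * (gp θ n (i + 1) - gp θ n i) ≤ X ^ (1 - θ / 2) := by
      calc X ^ (θ / 2) * (gp θ n (i + 1) - gp θ n i) ≤ X ^ (θ / 2) * X ^ (1 - θ) := by gcongr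
        _ = X ^ (1 - θ / 2) := by
            rw [← Real.rpow_add hX0]
            congr 1
            ring
    have r2 : (X ^ (θ / 2))⁻¹ * ∫ t in Ioc 0 (2 * X), ‖F t‖ ^ 2 ≤
        C * 2 ^ (1 + ε) * X ^ (1 - θ / 2 + ε) := by
      calc (X ^ (θ / 2))⁻¹ * ∫ t in Ioc 0 (2 * X), ‖F t‖ ^ 2 ≤
            (X ^ (θ / 2))⁻¹ * (C * (2 * X) ^ (1 + ε)) := by gcongr
        _ = C * 2 ^ (1 + ε) * X ^ (1 - θ / 2 + ε) := by
            rw [Real.mul_rpow (by norm_num) hX0.le, ← Real.rpow_neg hX0.le]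
            have : X ^ (1 - θ / 2 + ε) = X ^ (-(θ / 2)) * X ^ (1 + ε) := by
              rw [← Real.rpow_add hX0]
              congr 1
              ring
            rw [this]
            ring
    have r3 : X ^ ε * X ^ (1 - θ / 2) ≤ X ^ (1 - δ) := by
      rw [← Real.rpow_add hX0]
      exact Real.rpow_le_rpow_of_exponent_le hX1 (by linarith)
    have r4 : X ^ ε * X ^ (1 - θ / 2 + ε) ≤ X ^ (1 - δ) := by
      rw [← Real.rpow_add hX0]
      exact Real.rpow_le_rpow_of_exponent_le hX1 (by linarith)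
    calc K * (2 * X) ^ ε * (X ^ (θ / 2) * (gp θ n (i + 1) - gp θ n i) +
          (X ^ (θ / 2))⁻¹ * ∫ t in Ioc 0 (2 * X), ‖F t‖ ^ 2)
        ≤ K * (2 * X) ^ ε * (X ^ (1 - θ / 2) + C * 2 ^ (1 + ε) * X ^ (1 - θ / 2 + ε)) := by
          gcongr
      _ = K * 2 ^ ε * (X ^ ε * X ^ (1 - θ / 2) +
            C * 2 ^ (1 + ε) * (X ^ ε * X ^ (1 - θ / 2 + ε))) := by
          rw [Real.mul_rpow (by norm_num) hX0.le]
          ring
      _ ≤ K * 2 ^ ε * (X ^ (1 - δ) + C * 2 ^ (1 + ε) * X ^ (1 - δ)) := by gcongr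
      _ = K * 2 ^ ε * (1 + C * 2 ^ (1 + ε)) * X ^ (1 - δ) := by ring
  calc _ ≤ ‖∫ t in X..gp θ n i, F t * ((dif l t : ℝ) : ℂ)‖ +
        ‖∫ t in gp θ n i..T, F t * ((dif l t : ℝ) : ℂ)‖ := norm_add_le _ _
    _ ≤ X ^ (1 - δ) + (X ^ (1 - δ) + K * 2 ^ ε * (1 + C * 2 ^ (1 + ε)) * X ^ (1 - δ)) := by
        linarith
    _ = (2 + K * 2 ^ ε * (1 + C * 2 ^ (1 + ε))) * X ^ (1 - δ) := by ring

theorem t_DET (_h1 : S_CRU) (h2 : S_INT) : S_DET := by
  intro k F A θ ρ δ hF hA hθ _ _ hρ1 hδ hδρ hδθ l hl hbad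
  have hA0 : 0 < A := by linarith
  have hl0 : ∀ j, 0 < l j := fun j => lt_of_lt_of_le (inv_pos.2 hA0) (hl j).1
  obtain ⟨C1, hC1, hloc⟩ := local_bound h2 hF hA hθ hδρ hδθ hl
  obtain ⟨n0, hn0⟩ := eventually_atTop.1 hbad
  have hint : ∀ a b : ℝ, 0 ≤ a → a ≤ b →
      IntervalIntegrable (fun t => F t * ((dif l t : ℝ) : ℂ)) volume a b := by
    intro a b ha hab
    rw [intervalIntegrable_iff_integrableOn_Ioc_of_le hab]
    exact (int_dif h2 hF hl0 b).mono_set (Ioc_subset_Ioc ha le_rfl)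
  obtain ⟨C0, hC0⟩ : ∃ C0 : ℝ, C0 = ∫ t in Ioc 0 ((2 : ℝ) ^ n0), ‖F t * ((dif l t : ℝ) : ℂ)‖ :=
    ⟨_, rfl⟩
  have hC00 : 0 ≤ C0 := by
    rw [hC0]
    exact integral_nonneg fun t => norm_nonneg _
  have hδ1 : δ < 1 := by linarith
  have hq : 1 < (2 : ℝ) ^ (1 - δ) := Real.one_lt_rpow (by norm_num) (by linarith)
  obtain ⟨K', hK'⟩ : ∃ K' : ℝ, K' = C1 / ((2 : ℝ) ^ (1 - δ) - 1) := ⟨_, rfl⟩
  have hK0 : 0 ≤ K' := by
    rw [hK']
    exact div_nonneg hC1.le (by linarith)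
  have hKq : K' + C1 = K' * (2 : ℝ) ^ (1 - δ) := by
    have h3 : (2 : ℝ) ^ (1 - δ) - 1 ≠ 0 := by linarith
    have h4 : K' * ((2 : ℝ) ^ (1 - δ) - 1) = C1 := by
      rw [hK']
      field_simp
    linarith
  have hscale : ∀ n, n0 ≤ n → ‖∫ t in (0 : ℝ)..(2 : ℝ) ^ n, F t * ((dif l t : ℝ) : ℂ)‖ ≤
      C0 + K' * ((2 : ℝ) ^ n) ^ (1 - δ) := by
    intro n hn
    induction n, hn using Nat.le_induction with
    | base =>
      rw [intervalIntegral.integral_of_le (by positivity)]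
      have h3 : ‖∫ t in Ioc 0 ((2 : ℝ) ^ n0), F t * ((dif l t : ℝ) : ℂ)‖ ≤ C0 := by
        rw [hC0]
        exact norm_integral_le_integral_norm _
      have h4 : 0 ≤ K' * ((2 : ℝ) ^ n0) ^ (1 - δ) := by positivity
      linarith
    | succ n hn ih =>
      have h3 := hloc n (hn0 n hn) (2 ^ (n + 1)) (pow_le_pow_right₀ (by norm_num) (by omega)) le_rfl
      have h4 := intervalIntegral.integral_add_adjacent_intervals
        (hint 0 ((2 : ℝ) ^ n) le_rfl (by positivity))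
        (hint ((2 : ℝ) ^ n) ((2 : ℝ) ^ (n + 1)) (by positivity)
          (pow_le_pow_right₀ (by norm_num) (by omega)))
      rw [← h4]
      refine (norm_add_le _ _).trans ?_
      have h5 : ((2 : ℝ) ^ (n + 1)) ^ (1 - δ) = ((2 : ℝ) ^ n) ^ (1 - δ) * 2 ^ (1 - δ) := by
        rw [pow_succ, Real.mul_rpow (by positivity) (by norm_num)]
      have h6 : K' * ((2 : ℝ) ^ (n + 1)) ^ (1 - δ) = (K' + C1) * ((2 : ℝ) ^ n) ^ (1 - δ) := by
        rw [h5, hKq]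
        ring
      rw [h6]
      linarith
  refine ⟨C0 + K' + C1, fun T hT => ?_⟩
  have hT0 : 0 < T := by linarith
  have hT1 : 1 ≤ T ^ (1 - δ) := Real.one_le_rpow hT (by linarith)
  by_cases hTn : T < 2 ^ n0
  · have h3 : ‖∫ t in Ioc 0 T, F t * ((dif l t : ℝ) : ℂ)‖ ≤ C0 := by
      rw [hC0]
      refine (norm_integral_le_integral_norm _).trans ?_
      exact setIntegral_mono_set (int_dif h2 hF hl0 _).norm (ae_of_all _ fun t => norm_nonneg _)
        (Ioc_subset_Ioc le_rfl hTn.le).eventuallyLE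
    have h4 : C0 + K' + C1 ≤ (C0 + K' + C1) * T ^ (1 - δ) :=
      le_mul_of_one_le_right (by linarith) hT1
    linarith
  · push Not at hTn
    obtain ⟨n, hn1, hn2⟩ := exists_nat_pow_near hT (one_lt_two : (1 : ℝ) < 2)
    have hn : n0 ≤ n := by
      by_contra h
      push Not at h
      have h3 : (2 : ℝ) ^ (n + 1) ≤ 2 ^ n0 := pow_le_pow_right₀ (by norm_num) (by omega)
      linarith
    have h3 := hloc n (hn0 n hn) T hn1 hn2.le
    have h4 := intervalIntegral.integral_add_adjacent_intervals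
      (hint 0 ((2 : ℝ) ^ n) le_rfl (by positivity)) (hint ((2 : ℝ) ^ n) T (by positivity) hn1)
    rw [← intervalIntegral.integral_of_le hT0.le, ← h4]
    refine (norm_add_le _ _).trans ?_
    have h5 := hscale n hn
    have h6 : ((2 : ℝ) ^ n) ^ (1 - δ) ≤ T ^ (1 - δ) :=
      Real.rpow_le_rpow (by positivity) hn1 (by linarith)
    calc _ ≤ C0 + K' * ((2 : ℝ) ^ n) ^ (1 - δ) + C1 * ((2 : ℝ) ^ n) ^ (1 - δ) := by linarith
      _ ≤ C0 * T ^ (1 - δ) + K' * T ^ (1 - δ) + C1 * T ^ (1 - δ) := by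
          have h7 : C0 ≤ C0 * T ^ (1 - δ) := le_mul_of_one_le_right hC00 hT1
          gcongr
      _ = (C0 + K' + C1) * T ^ (1 - δ) := by ring

end Pool.Agent.U364.GZ
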